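import Pool.Agent.H743.JL.StmC
import Pool.Agent.H743.X17.SYSB

/-!
# JL-NI (for helper743): the fixed part is not degenerate, arithmetic form
-/

set_option autoImplicit false
set_option linter.all false

open scoped Classical

namespace Pool.Agent.H734.JL.NI

open Finset Module
open Pool.Agent.N916.MO
open Pool.Agent.N916.GB (pt ps sx Po)
open Pool.Agent.Y703.CQ (c2 nr)
open Pool.Agent.N973.ND (uu)
open Pool.Agent.N916.AM (Nd Rich LAV LAH Bs)
open Pool.Agent.H743.X17 (Sys Rt RS LL lS al nu pd lam)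
open Pool.Agent.H743.JL
open Pool.Agent.H743.X17.QSYSB (aj f4 mem_RS lS_rec al_odd al_two nu_odd LL_off lS_nu)

theorem aj_nr {p v : ℕ} (hp : p.Prime) (hv : v.Prime) (hne : p ≠ v) : aj p v = nr p v := by
  haveI : Fact p.Prime := ⟨hp⟩
  unfold aj nr
  rw [← jacobiSym.legendreSym.to_jacobiSym]
  have h0 : ((v : ℕ) : ZMod p) ≠ 0 := by
    intro h
    rw [ZMod.natCast_eq_zero_iff] at h
    exact hne ((Nat.prime_dvd_prime_iff_eq hp hv).1 h)
  have h := legendreSym.eq_one_iff' p h0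
  by_cases hs : IsSquare (v : ZMod p)
  · rw [if_pos hs, if_pos (h.2 hs)]
  · rw [if_neg hs, if_neg fun h' => hs (h.1 h')]

theorem f4_uu (p : ℕ) : f4 p = uu p := by
  unfold f4 uu
  have h : (p : ℤ) % 4 = 3 ↔ p % 4 = 3 := by omega
  by_cases hs : p % 4 = 3
  · rw [if_pos hs, if_pos (h.2 hs)]
  · rw [if_neg hs, if_neg fun h' => hs (h.1 h')]

/-- the product of distinct primes -/
theorem sqf_prod {κ : Type} (s : Finset κ) (f : κ → ℕ) (hf : ∀ k ∈ s, (f k).Prime)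
    (hi : Set.InjOn f s) : Squarefree (∏ k ∈ s, (f k : ℤ)) := by
  refine Finset.squarefree_prod_of_pairwise_isCoprime ?_ fun k hk => ?_
  · intro a ha b hb hab
    show IsRelPrime (f a : ℤ) (f b : ℤ)
    refine IsCoprime.isRelPrime ?_
    rw [Nat.isCoprime_iff_coprime]
    exact (Nat.coprime_primes (hf a ha) (hf b hb)).2 fun h => hab (hi ha hb h)
  · rw [Int.squarefree_natCast]
    exact (hf k hk).squarefree

section
variable {M : ℕ} {S₀ : Finset ℕ} {t : ℤ} {ι : Type} [Fintype ι] [LinearOrder ι]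
  {p : ι → ℕ} {k0 : ι} {t₀ m : ℤ}

theorem t0_sqf (h3 : S_TW) (hS : ∀ v ∈ S₀, Po v) (ht : Squarefree t)
    (ht0 : t₀ = tw t (∏ v ∈ S₀, (v : ℤ))) : Squarefree t₀ := by
  rw [ht0]
  exact ((h3 t ht).1 _ (sqf_prod S₀ (fun v => v) (fun v hv => (hS v hv).1)
    (Set.injOn_id _))).1

theorem t0_prime (h3 : S_TW) (hS : ∀ v ∈ S₀, Po v) (ht : Squarefree t)
    (ht0 : t₀ = tw t (∏ v ∈ S₀, (v : ℤ))) {q : ℕ} (hq : q.Prime) (hd : (q : ℤ) ∣ t₀) :
    (q : ℤ) ∣ t ∨ q ∈ S₀ := by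
  rw [ht0] at hd
  rcases ((h3 t ht).1 _ (sqf_prod S₀ (fun v => v) (fun v hv => (hS v hv).1)
    (Set.injOn_id _))).2 q hq hd with h | h
  · exact Or.inl h
  · right
    obtain ⟨v, hv, hd⟩ := (Prime.dvd_finsetProd_iff (Nat.prime_iff_prime_int.1 hq) _).1 h
    have h1 := (Nat.prime_dvd_prime_iff_eq hq (hS v hv).1).1 (Int.natCast_dvd_natCast.1 hd)
    rw [h1]
    exact hv

theorem not_dvd_t0 (h3 : S_TW) (hS : ∀ v ∈ S₀, Po v) (ht : Squarefree t) (htM : t ∣ M)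
    (hp : ∀ k, Po (p k) ∧ p k ∉ S₀ ∧ (p k).Coprime M)
    (ht0 : t₀ = tw t (∏ v ∈ S₀, (v : ℤ))) (k : ι) : ¬ (p k : ℤ) ∣ t₀ := by
  intro hd
  rcases t0_prime h3 hS ht ht0 (hp k).1.1 hd with h | h
  · have h1 : p k ∣ M := Int.natCast_dvd_natCast.1 (h.trans htM)
    exact (hp k).1.1.one_lt.ne' (Nat.Coprime.eq_one_of_dvd (hp k).2.2 h1)
  · exact (hp k).2.1 h

theorem m_sqf (h3 : S_TW) (hS : ∀ v ∈ S₀, Po v) (ht : Squarefree t) (htM : t ∣ M)
    (hp : ∀ k, Po (p k) ∧ p k ∉ S₀ ∧ (p k).Coprime M) (hinj : Function.Injective p)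
    (ht0 : t₀ = tw t (∏ v ∈ S₀, (v : ℤ))) (hm : m = t₀ * ∏ k, (p k : ℤ)) : Squarefree m := by
  rw [hm, squarefree_mul_iff]
  refine ⟨IsCoprime.isRelPrime ?_, t0_sqf h3 hS ht ht0,
    sqf_prod univ p (fun k _ => (hp k).1.1) hinj.injOn⟩
  refine IsCoprime.prod_right fun k _ => ?_
  rw [isCoprime_comm]
  exact ((Nat.prime_iff_prime_int.1 (hp k).1.1).coprime_iff_not_dvd).2
    (not_dvd_t0 h3 hS ht htM hp ht0 k)

theorem mem_piU (h3 : S_TW) (hS : ∀ v ∈ S₀, Po v) (ht : Squarefree t) (htM : t ∣ M)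
    (hp : ∀ k, Po (p k) ∧ p k ∉ S₀ ∧ (p k).Coprime M) (hinj : Function.Injective p)
    (ht0 : t₀ = tw t (∏ v ∈ S₀, (v : ℤ))) (hm : m = t₀ * ∏ k, (p k : ℤ)) (x : ℕ) :
    x ∈ RS m ↔ ∃ v, piU m t₀ p v = x := by
  have hsq := m_sqf h3 hS ht htM hp hinj ht0 hm
  constructor
  · intro hx
    obtain ⟨hxp, hx2⟩ := (mem_RS hsq).1 hx
    by_cases h2 : x = 2 ∨ (x : ℤ) ∣ t₀
    · exact ⟨Sum.inl ⟨x, mem_filter.2 ⟨hx, h2⟩⟩, rfl⟩
    · push Not at h2
      rcases hx2 with hd | hd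
      · rw [hm] at hd
        rcases (Nat.prime_iff_prime_int.1 hxp).dvd_or_dvd hd with h | h
        · exact absurd h h2.2
        · obtain ⟨k, -, hd⟩ := (Prime.dvd_finsetProd_iff (Nat.prime_iff_prime_int.1 hxp) _).1 h
          have h1 := (Nat.prime_dvd_prime_iff_eq hxp (hp k).1.1).1 (Int.natCast_dvd_natCast.1 hd)
          exact ⟨Sum.inr k, h1.symm⟩
      · exact absurd hd.1 h2.1
  · rintro ⟨v, rfl⟩
    rcases v with u | k
    · exact (mem_filter.1 u.2).1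
    · rw [mem_RS hsq]
      refine ⟨(hp k).1.1, Or.inl ?_⟩
      rw [hm]
      exact Dvd.dvd.mul_left (Finset.dvd_prod_of_mem (fun k => (p k : ℤ)) (mem_univ k)) _

theorem inj_piU (h3 : S_TW) (hS : ∀ v ∈ S₀, Po v) (ht : Squarefree t) (htM : t ∣ M)
    (hp : ∀ k, Po (p k) ∧ p k ∉ S₀ ∧ (p k).Coprime M) (hinj : Function.Injective p)
    (ht0 : t₀ = tw t (∏ v ∈ S₀, (v : ℤ))) :
    Function.Injective (piU m t₀ p) := by
  have hne : ∀ (u : UF m t₀) (k : ι), u.1 ≠ p k := by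
    intro u k h
    rcases (mem_filter.1 u.2).2 with h2 | h2
    · exact (hp k).1.2 (h ▸ h2)
    · rw [h] at h2
      exact not_dvd_t0 h3 hS ht htM hp ht0 k h2
  intro a b hab
  rcases a with u | k <;> rcases b with u' | k'
  · have h : u.1 = u'.1 := hab
    rw [Subtype.ext h]
  · exact absurd hab (hne u k')
  · exact absurd hab.symm (hne u' k)
  · have h : p k = p k' := hab
    rw [hinj h]

/-- the small ramified primes are in `Bs` -/
theorem UF_sub (h3 : S_TW) (hM : 0 < M) (h8 : 8 ∣ M) (hS : ∀ v ∈ S₀, Po v) (ht : Squarefree t)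
    (htM : t ∣ M) (ht0 : t₀ = tw t (∏ v ∈ S₀, (v : ℤ))) (hsq : Squarefree m) :
    UF m t₀ ⊆ Bs M S₀ := by
  intro u hu
  obtain ⟨hu1, hu2⟩ := mem_filter.1 hu
  have hup := ((mem_RS hsq).1 hu1).1
  unfold Bs
  rw [mem_union, Nat.mem_primeFactors]
  rcases hu2 with h | h
  · right
    rw [h]
    exact ⟨Nat.prime_two, (by norm_num : 2 ∣ 8).trans h8, hM.ne'⟩
  · rcases t0_prime h3 hS ht ht0 hup h with h' | h'
    · right
      exact ⟨hup, Int.natCast_dvd_natCast.1 (h'.trans htM), hM.ne'⟩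
    · exact Or.inl h'

/-- the independence -/
theorem indep (h3 : S_TW) (hM : 0 < M) (h8 : 8 ∣ M) (h17 : 17 ∣ M) (hS : ∀ v ∈ S₀, Po v)
    (ht : Squarefree t) (htM : t ∣ M) (hp : ∀ k, Po (p k) ∧ p k ∉ S₀ ∧ (p k).Coprime M)
    (hinj : Function.Injective p) (ht0 : t₀ = tw t (∏ v ∈ S₀, (v : ℤ)))
    (hm : m = t₀ * ∏ k, (p k : ℤ)) (hN : Nd M S₀ ((univ.image p).erase (p k0)))
    (b : UF m t₀ → ZMod 2) (s t' : ZMod 2) (h0 : 17 ∈ UF m t₀ → t' = 0)
    (h : ∀ k : Ix k0, ∑ v, b v * LA m (piU m t₀ p) (Sum.inl v) (Sum.inr k) +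
      s * aA m (piU m t₀ p) (Sum.inr k) + t' * nA (piU m t₀ p) (Sum.inr k) = 0) :
    (∀ v, b v = 0) ∧ s = 0 ∧ t' = 0 := by
  have hsq := m_sqf h3 hS ht htM hp hinj ht0 hm
  have hsub := UF_sub h3 hM h8 hS ht htM ht0 hsq
  have h17B : 17 ∈ Bs M S₀ := by
    unfold Bs
    rw [mem_union, Nat.mem_primeFactors]
    exact Or.inr ⟨by norm_num, h17, hM.ne'⟩
  -- the coefficients
  let w' : ℕ → ZMod 2 := fun v => (if hv : v ∈ UF m t₀ then b ⟨v, hv⟩ else 0) +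
    if v = 17 then t' else 0
  have hw' : ∀ v, w' v = (if hv : v ∈ UF m t₀ then b ⟨v, hv⟩ else 0) +
    if v = 17 then t' else 0 := fun _ => rfl
  have hkey : ∀ k : Ix k0, ∑ v ∈ Bs M S₀, w' v * nr (p k.1) v + s * uu (p k.1) = 0 := by
    intro k
    rw [← h k]
    have hk17 : p k.1 ≠ 17 := by
      intro hk
      have h1 := (hp k.1).2.2
      rw [hk] at h1
      exact absurd (Nat.Coprime.eq_one_of_dvd h1 h17) (by norm_num)
    have e1 : aA m (piU m t₀ p) (Sum.inr k.1) = uu (p k.1) := by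
      show al m (p k.1) = _
      rw [al_odd (hp k.1).1.1 (hp k.1).1.2, f4_uu]
    have e2 : nA (piU m t₀ p) (Sum.inr k.1) = nr (p k.1) 17 := by
      show nu (p k.1) = _
      rw [nu_odd (hp k.1).1.2]
      exact aj_nr (hp k.1).1.1 (by norm_num) hk17
    have e3 : ∀ v : UF m t₀, LA m (piU m t₀ p) (Sum.inl v) (Sum.inr k.1) = nr (p k.1) v.1 := by
      intro v
      have hvp := ((mem_RS hsq).1 (mem_filter.1 v.2).1).1
      have hne : v.1 ≠ p k.1 := by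
        intro hv
        have h1 : piU m t₀ p (Sum.inl v) = piU m t₀ p (Sum.inr k.1) := hv
        have h2 := inj_piU (m := m) h3 hS ht htM hp hinj ht0 h1
        exact absurd h2 (by simp)
      show LL m v.1 (p k.1) = _
      rw [LL_off hne, lS_rec (hp k.1).1.1 (hp k.1).1.2 hvp (Ne.symm hne),
        aj_nr (hp k.1).1.1 hvp (Ne.symm hne)]
    rw [e1, e2]
    have e4 : ∑ v : UF m t₀, b v * LA m (piU m t₀ p) (Sum.inl v) (Sum.inr k.1) =
        ∑ v ∈ Bs M S₀, (if hv : v ∈ UF m t₀ then b ⟨v, hv⟩ else 0) * nr (p k.1) v := by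
      have e5 : ∑ v : UF m t₀, b v * LA m (piU m t₀ p) (Sum.inl v) (Sum.inr k.1) =
          ∑ v : UF m t₀, (fun v : ℕ => (if hv : v ∈ UF m t₀ then b ⟨v, hv⟩ else 0) *
            nr (p k.1) v) v.1 := by
        refine sum_congr rfl fun v _ => ?_
        show _ = (if hv : v.1 ∈ UF m t₀ then b ⟨v.1, hv⟩ else 0) * nr (p k.1) v.1
        rw [e3, dif_pos v.2]
      rw [e5, Finset.sum_coe_sort (UF m t₀) (fun v : ℕ =>
        (if hv : v ∈ UF m t₀ then b ⟨v, hv⟩ else 0) * nr (p k.1) v)]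
      refine sum_subset hsub fun v _ hv => ?_
      rw [dif_neg hv, zero_mul]
    have e6 : ∑ v ∈ Bs M S₀, (if v = 17 then t' else 0) * nr (p k.1) v = t' * nr (p k.1) 17 := by
      rw [sum_eq_single 17]
      · rw [if_pos rfl]
      · intro v _ hv
        rw [if_neg hv, zero_mul]
      · intro hv
        exact absurd h17B hv
    rw [e4]
    simp only [hw', add_mul, sum_add_distrib]
    rw [e6]
    ring
  have hall : ¬ ((∃ v ∈ Bs M S₀, w' v ≠ 0) ∨ s ≠ 0) := by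
    intro hcon
    obtain ⟨q, hq, hne⟩ := hN w' s hcon
    obtain ⟨hq1, hq2⟩ := mem_erase.1 hq
    obtain ⟨k, -, rfl⟩ := mem_image.1 hq2
    exact hne (hkey ⟨k, fun hk => hq1 (by rw [hk])⟩)
  push Not at hall
  obtain ⟨hw0, hs⟩ := hall
  have ht' : t' = 0 := by
    by_cases h17U : 17 ∈ UF m t₀
    · exact h0 h17U
    · have h1 := hw0 17 h17B
      rw [hw', dif_neg h17U, if_pos rfl, zero_add] at h1
      exact h1
  refine ⟨fun v => ?_, hs, ht'⟩
  have h1 := hw0 v.1 (hsub v.2)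
  rw [hw', dif_pos v.2, ht'] at h1
  simpa using h1

end

theorem t_NI (h1 : S_NA) (h2 : S_DT) (h3 : S_TW) : S_NI := by
  intro M S₀ t ι _ _ p k0 t₀ m hM h8 h17 hS ht htM hp hinj ht0 hm hR hN
  have hsq := m_sqf h3 hS ht htM hp hinj ht0 hm
  have hD := h2 m (UF m t₀ ⊕ ι) (piU m t₀ p) hsq hR (inj_piU h3 hS ht htM hp hinj ht0)
    (mem_piU h3 hS ht htM hp hinj ht0 hm)
  have hne17 : ∀ k, p k ≠ 17 := by
    intro k hk
    have h1 := (hp k).2.2
    rw [hk] at h1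
    exact absurd (Nat.Coprime.eq_one_of_dvd h1 h17) (by norm_num)
  refine h1 (UF m t₀) ι k0 (rA (piU m t₀ p)) (wA m (piU m t₀ p)) (nA (piU m t₀ p))
    (aA m (piU m t₀ p)) (LA m (piU m t₀ p)) _ hD ?_ ?_ ?_ ?_
  · intro k
    refine ⟨?_, ?_⟩
    · show wt m (p k) = 1
      unfold wt
      rw [if_neg fun h => (hp k).1.2 h.1]
    · show (if p k = 17 then (1 : ZMod 2) else 0) = 0
      rw [if_neg (hne17 k)]
  · have hw : ∀ v : UF m t₀, wA m (piU m t₀ p) (Sum.inl v) = 0 → v.1 = 2 ∧ m % 4 = 3 := by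
      intro v hv
      have h4 : wt m v.1 = 0 := hv
      unfold wt at h4
      by_contra hcon
      rw [if_neg hcon] at h4
      exact one_ne_zero h4
    intro v hv
    obtain ⟨hv2, hm4⟩ := hw v hv
    refine ⟨?_, fun v' hv' => ?_⟩
    · show al m v.1 = 1
      rw [hv2, al_two, if_pos hm4]
    · exact Subtype.ext (hv2.trans (hw v' hv').1.symm)
  · intro hr b s t' h
    refine indep h3 hM h8 h17 hS ht htM hp hinj ht0 hm hN b s t' (fun h17U => ?_) h
    exfalso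
    have h4 := hr (Sum.inl ⟨17, h17U⟩)
    have h5 : (if (17 : ℕ) = 17 then (1 : ZMod 2) else 0) = 0 := h4
    rw [if_pos rfl] at h5
    exact one_ne_zero h5
  · intro v0 hv0
    have hv17 : v0.1 = 17 := by
      by_contra hcon
      have h5 : (if v0.1 = 17 then (1 : ZMod 2) else 0) = 1 := hv0
      rw [if_neg hcon] at h5
      exact zero_ne_one h5
    refine ⟨fun k => ?_, fun b s h => ?_⟩
    · show nu (p k) = LL m v0.1 (p k)
      rw [hv17, LL_off (Ne.symm (hne17 k)), lS_rec (hp k).1.1 (hp k).1.2 (by norm_num) (hne17 k),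
        nu_odd (hp k).1.2]
      rfl
    · have h6 := indep h3 hM h8 h17 hS ht htM hp hinj ht0 hm hN b s 0 (fun _ => rfl) (by
        intro k
        rw [zero_mul, add_zero]
        exact h k)
      exact ⟨h6.1, h6.2.1⟩

end Pool.Agent.H734.JL.NI
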